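import Pool.Agent.H83.FS.Final

/-!
# Connectedness of the friends-and-strangers graphs of complete bipartite graphs

The conjecture on `FS(K_{k,n-k}, Y)` is proved in full, for all `2 ≤ k` and `2 k ≤ n`: if `Y` is a
connected non-bipartite graph on `n` vertices without non-trivial `k`-bridge which is not the cycle
`C_n`, then `FS(K_{k,n-k}, Y)` is connected.

Proof. Call the tokens of the two sides of `K_{k,n-k}` white and black. Two black tokens `b`, `b'`
are linked in a state if for some white `a ≠ a'` the state in which `a, a'` and `b, b'` are
exchanged can be reached; linkage is an equivalence relation, and constant on the components. Two
white and two black tokens on a vertex with three of its neighbours are linked. If some tokens are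
not linked, then by a minimal distance argument some unlinked `b`, `b'` sit on adjacent vertices
`u`, `v`, and no two white tokens can be brought to two neighbours of `u`. If a white token lies in
a component of `Y - u - v` which is adjacent to `u` and to `v`, then the pair can be driven around,
and all vertices have degree two. Otherwise drive the pair such that as many white tokens as
possible are attached to its front vertex: then all are, in one component `K` attached by one
edge; driving the pair into `K`, the first `k - 2` vertices must have degree two, which gives a
non-trivial `k`-bridge. So all black tokens are linked, and, exchanging the colours, all white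
tokens. A subgroup of `Perm A × Perm B` with the corresponding properties which contains an odd
element (from an odd cycle of `Y`) is everything.
-/

namespace Pool.Agent.Results.MP_16c8e2_co.CompleteBipartite

open SimpleGraph Pool.Agent.H83.FS

/-- **Full answer to Q1 (positive).** `FSGraph X Y` is the friends-and-strangers graph of `X` and
`Y`; `HasBridge Y k`: there is a non-trivial `k`-bridge, that is, a path of `k` vertices of `Y` whose
edges are cut edges of `Y`, whose inner vertices have degree two and whose ends have degree at least
two. -/
theorem result :
    ∀ k n : ℕ, 2 ≤ k → 2 * k ≤ n → ∀ (V : Type) [Fintype V] (Y : SimpleGraph V),
      Fintype.card V = n → Y.Connected → ¬ Y.Colorable 2 → ¬ HasBridge Y k →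
      IsEmpty (Y ≃g cycleGraph n) →
      (FSGraph (completeBipartiteGraph (Fin k) (Fin (n - k))) Y).Connected := by
  classical
  intro k n hk hn V _ Y hV hY hcol hbr hcyc
  have h := main_of_steps steps (Fin k) (Fin (n - k)) V Y (by simpa using hk)
    (by simp; omega) (by simp; omega) hY hcol (by simpa using hbr) (by rw [hV]; exact hcyc)
  exact h

end Pool.Agent.Results.MP_16c8e2_co.CompleteBipartite
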